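import Pool.Agent.helper53.SP4.Spec

/-!
# Project SP4 (MP_561ff4_al), row S4D: the odd primes which divide `|Sp(4, q)|`
-/

set_option autoImplicit false

namespace Pool.Agent.SP4

open Pool.Agent.GS

/-- a permutation of order dividing `r` of a finite set whose cardinality is prime to `r` has a fixed point -/
theorem S4D_fix {X : Type} [Finite X] (r : ℕ) (hr : r.Prime) (h : ¬ r ∣ Nat.card X) (σ : Equiv.Perm X) (hσ : σ ^ r = 1) : ∃ a, σ a = a := by
  classical
  have _ := Fact.mk hr
  have _ := Fintype.ofFinite X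
  rw [Nat.card_eq_fintype_card] at h
  exact Equiv.Perm.exists_fixed_point_of_prime (n := 1) h (by rw [pow_one]; exact hσ)

theorem S4D (hS4B : S4B_stmt) (hS4W : S4W_stmt) : S4D_stmt := by
  have _ := hS4W
  intro F _ _ _ r hr hr2 hdvd
  classical
  have _ := Fact.mk hr
  have _ := Fintype.ofFinite F
  obtain ⟨hBB, hBs, hBnd, hBl, -⟩ := hS4B F
  have hFr : ¬ r ∣ Nat.card F := by
    intro h
    obtain ⟨n, -, hn⟩ := FiniteField.card F 2
    rw [Nat.card_eq_fintype_card, hn] at h
    exact hr2 ((Nat.prime_dvd_prime_iff_eq hr Nat.prime_two).1 (hr.dvd_of_dvd_pow h))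
  have hq1 : 1 ≤ Nat.card F := Nat.card_pos
  have hcop : ∀ (k m : ℕ), m ∣ Nat.card F ^ k → ¬ r ∣ m := fun k m hm h => hFr (hr.dvd_of_dvd_pow (h.trans hm))
  have _ : Finite (SG F) := Finite.of_injective (fun g : SG F => fun w : Fin 4 → F => (g : (Fin 4 → F) ≃ₗ[F] (Fin 4 → F)) w) (by
    intro a b h
    apply Subtype.ext
    exact LinearEquiv.ext fun w => congrFun h w)
  obtain ⟨g, hg⟩ := exists_prime_orderOf_dvd_card' r hdvd
  have hg1 : g ≠ 1 := by
    intro h
    rw [h, orderOf_one] at hg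
    exact hr.one_lt.ne hg
  have hgr : g ^ r = 1 := by rw [← hg]; exact pow_orderOf_eq_one g
  -- the linear map
  set L : (Fin 4 → F) ≃ₗ[F] (Fin 4 → F) := (g : (Fin 4 → F) ≃ₗ[F] (Fin 4 → F)) with hL
  have hLr : ∀ w, (L ^ r) w = w := by
    intro w
    have h1 : L ^ r = 1 := by
      have := congrArg Subtype.val hgr
      exact this
    rw [h1]; rfl
  have hLB : ∀ u w, B (L u) (L w) = B u w := g.2
  set W : Submodule F (Fin 4 → F) := LinearMap.ker ((L : (Fin 4 → F) →ₗ[F] (Fin 4 → F)) - 1) with hW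
  have hWm : ∀ w, w ∈ W ↔ L w = w := by
    intro w
    rw [hW, LinearMap.mem_ker, LinearMap.sub_apply, sub_eq_zero]
    exact Iff.rfl
  -- the permutation of `V`
  have hpow : ∀ (n : ℕ) (w : Fin 4 → F), ((L.toEquiv : Equiv.Perm (Fin 4 → F)) ^ n) w = (L ^ n) w := by
    intro n
    induction n with
    | zero => intro w; rfl
    | succ n ih => intro w; rw [pow_succ, pow_succ, Equiv.Perm.mul_apply, ih]; rfl
  have hmod : Nat.card (Fin 4 → F) ≡ Nat.card W [MOD r] := by
    have h0 : (L.toEquiv : Equiv.Perm (Fin 4 → F)) ^ r ^ 1 = 1 := by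
      rw [pow_one]
      refine Equiv.ext fun w => ?_
      rw [hpow, hLr]; rfl
    have h1 := Equiv.Perm.card_compl_support_modEq h0
    rw [Nat.card_eq_fintype_card, Nat.card_eq_fintype_card]
    refine h1.symm.trans ?_
    have h2 : ((Equiv.Perm.support (L.toEquiv : Equiv.Perm (Fin 4 → F)))ᶜ).card = Fintype.card W := by
      rw [← Fintype.card_coe]
      apply Fintype.card_congr
      refine Equiv.subtypeEquivRight fun w => ?_
      rw [Finset.mem_compl, Equiv.Perm.mem_support, not_not]
      exact (hWm w).symm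
    rw [h2]
  have hV : Nat.card (Fin 4 → F) = Nat.card F ^ 4 := by
    rw [Nat.card_fun]; simp
  have hWc : Nat.card W = Nat.card F ^ Module.finrank F W := Module.natCard_eq_pow_finrank
  rw [hV, hWc] at hmod
  have hd4 : Module.finrank F W ≤ 4 := by
    have := Submodule.finrank_le W
    rwa [Module.finrank_fin_fun] at this
  have hsub : ∀ d, Module.finrank F W = d → d ≤ 4 → r ∣ Nat.card F ^ (4 - d) - 1 := by
    intro d hd hd4
    have h1 : r ∣ Nat.card F ^ 4 - Nat.card F ^ d := by
      rw [hd] at hmod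
      exact (Nat.modEq_iff_dvd' (Nat.pow_le_pow_right hq1 hd4)).1 hmod.symm
    have h2 : Nat.card F ^ 4 - Nat.card F ^ d = Nat.card F ^ d * (Nat.card F ^ (4 - d) - 1) := by
      rw [Nat.mul_sub, ← pow_add, Nat.add_sub_cancel' hd4, mul_one]
    rw [h2] at h1
    exact (Nat.Prime.dvd_mul hr).1 h1 |>.resolve_left fun h => hFr (hr.dvd_of_dvd_pow h)
  have hdv : ∀ k, k ∣ 4 → r ∣ Nat.card F ^ k - 1 → r ∣ Nat.card F ^ 4 - 1 := by
    rintro k ⟨m, hm⟩ h
    refine h.trans ?_
    rw [hm, pow_mul]
    exact Nat.sub_one_dvd_pow_sub_one _ _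
  obtain ⟨d, hd⟩ : ∃ d, Module.finrank F W = d := ⟨_, rfl⟩
  rw [hd] at hd4
  interval_cases d
  · exact hsub 0 hd (by omega)
  · -- one fixed line: contradiction
    exfalso
    obtain ⟨v, hv⟩ : ∃ v : W, v ≠ 0 := by
      have : 0 < Module.finrank F W := by omega
      have _ := Module.finrank_pos_iff.1 this
      exact exists_ne 0
    have hv0 : (v : Fin 4 → F) ≠ 0 := fun h => hv (Subtype.ext h)
    have hLv : L v = v := (hWm v).1 v.2
    obtain ⟨w0, hw0⟩ : ∃ w0, B (v : Fin 4 → F) w0 = 1 := by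
      by_contra hno
      apply hv0
      apply hBnd
      intro w
      by_contra hw
      apply hno
      refine ⟨(B (v : Fin 4 → F) w)⁻¹ • w, ?_⟩
      have : B (v : Fin 4 → F) ((B (v : Fin 4 → F) w)⁻¹ • w) = (B (v : Fin 4 → F) w)⁻¹ * B (v : Fin 4 → F) w := by
        simp only [B, Pi.smul_apply, smul_eq_mul]; ring
      rw [this, inv_mul_cancel₀ hw]
    have hBadd : ∀ u w w' : Fin 4 → F, B u (w + w') = B u w + B u w' := by
      intro u w w'; simp only [B, Pi.add_apply]; ring
    have hBneg : ∀ u w : Fin 4 → F, B u (-w) = - B u w := by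
      intro u w; simp only [B, Pi.neg_apply]; ring
    -- the hyperplane as an additive subgroup
    let H : AddSubgroup (Fin 4 → F) :=
      { carrier := {w | B (v : Fin 4 → F) w = 0}
        zero_mem' := by simp [B]
        add_mem' := fun {a b} ha hb => by
          change B _ _ = 0
          rw [hBadd, show B (v : Fin 4 → F) a = 0 from ha, show B (v : Fin 4 → F) b = 0 from hb, add_zero]
        neg_mem' := fun {a} ha => by
          change B _ _ = 0
          rw [hBneg, show B (v : Fin 4 → F) a = 0 from ha, neg_zero] }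
    have hcard : Nat.card {w : Fin 4 → F // B (v : Fin 4 → F) w = 1} = Nat.card H := by
      apply Nat.card_congr
      refine ⟨fun w => ⟨w.1 - w0, ?_⟩, fun w => ⟨w.1 + w0, ?_⟩, fun w => ?_, fun w => ?_⟩
      · change B _ _ = 0
        rw [sub_eq_add_neg, hBadd, hBneg, hw0, w.2, add_neg_cancel]
      · rw [hBadd, hw0, show B (v : Fin 4 → F) w.1 = 0 from w.2, zero_add]
      · exact Subtype.ext (sub_add_cancel _ _)
      · exact Subtype.ext (add_sub_cancel_right _ _)
    have hH : Nat.card H ∣ Nat.card F ^ 4 := by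
      rw [← hV]; exact AddSubgroup.card_addSubgroup_dvd_card H
    have hno : ¬ r ∣ Nat.card {w : Fin 4 → F // B (v : Fin 4 → F) w = 1} := by
      rw [hcard]; exact hcop 4 _ hH
    have hinv : ∀ w : Fin 4 → F, B (v : Fin 4 → F) w = 1 ↔ B (v : Fin 4 → F) (L w) = 1 := by
      intro w
      have : B (v : Fin 4 → F) (L w) = B (v : Fin 4 → F) w := by
        conv_lhs => rw [← hLv]
        exact hLB _ _
      rw [this]
    obtain ⟨f, hf⟩ := S4D_fix r hr hno ((L.toEquiv).subtypeEquiv hinv) (by
      ext w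
      have : ∀ (n : ℕ) (w : {w : Fin 4 → F // B (v : Fin 4 → F) w = 1}),
          ((((L.toEquiv).subtypeEquiv hinv : Equiv.Perm {w : Fin 4 → F // B (v : Fin 4 → F) w = 1}) ^ n) w : Fin 4 → F) = (L ^ n) w := by
        intro n
        induction n with
        | zero => intro w; rfl
        | succ n ih => intro w; rw [pow_succ, pow_succ, Equiv.Perm.mul_apply, ih]; rfl
      rw [this, hLr]; rfl)
    have hfL : L (f : Fin 4 → F) = f := congrArg Subtype.val hf
    have hfW : (f : Fin 4 → F) ∈ W := (hWm _).2 hfL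
    -- `f` is a multiple of `v`
    obtain ⟨c, hc⟩ := (finrank_eq_one_iff_of_nonzero' v hv).1 hd ⟨f, hfW⟩
    have hfv : (f : Fin 4 → F) = c • (v : Fin 4 → F) := (congrArg Subtype.val hc).symm
    have h1 : B (v : Fin 4 → F) (f : Fin 4 → F) = 1 := f.2
    rw [hfv] at h1
    have h2 : B (v : Fin 4 → F) (c • (v : Fin 4 → F)) = c * B (v : Fin 4 → F) v := by
      simp only [B, Pi.smul_apply, smul_eq_mul]; ring
    rw [h2, hBB, mul_zero] at h1
    exact zero_ne_one h1
  · exact hdv 2 (by norm_num) (hsub 2 hd (by omega))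
  · exact hdv 1 (by norm_num) (hsub 3 hd (by omega))
  · exfalso
    apply hg1
    have htop : W = ⊤ := Submodule.eq_top_of_finrank_eq (by rw [hd, Module.finrank_fin_fun])
    apply Subtype.ext
    refine LinearEquiv.ext fun w => ?_
    have : w ∈ W := by rw [htop]; trivial
    exact (hWm w).1 this

end Pool.Agent.SP4
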