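import Pool.Agent.helper22.GS.FinalT
import Pool.Agent.helper18.SP4.S4B
import Pool.Agent.helper89.SP4.S4U
import Pool.Agent.helper39.SP4.S4W
import Pool.Agent.helper9.SP4.S4I
import Pool.Agent.helper74.SP4.S4C
import Pool.Agent.helper41.SP4.S4X
import Pool.Agent.helper15.SP4.S4M
import Pool.Agent.helper8.SP4.S4F
import Pool.Agent.helper60.SP4.S4O
import Pool.Agent.helper5.SP4.S4S
import Pool.Agent.helper85.SP4.S4P
import Pool.Agent.helper2.SP4.S4G
import Pool.Agent.helper39.SP4.S43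
import Pool.Agent.helper52.SP4.S4Y
import Pool.Agent.helper11.SP4.S4Q
import Pool.Agent.helper69.SP4.S45
import Pool.Agent.helper53.SP4.S4D
import Pool.Agent.helper14.SP4.S4T
import Pool.Agent.helper50.SP4.S4E
import Pool.Agent.helper79.SP4.S5A
import Pool.Agent.helper29.SP4.S5B
import Pool.Agent.helper51.SP4.S5T
import Pool.Agent.helper49.SP4.S5V
import Pool.Agent.helper74.SP4.S5L
import Pool.Agent.helper20.SP4.S5E

/-!
# Project SP4 (MP_561ff4_al, CELL E): the theorem for all automorphisms of `PSp(4, 2^f)`, assembled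
-/

set_option autoImplicit false

namespace Pool.Agent.SP4

open Pool.Agent.GS

theorem a_S4U : S4U_stmt := S4U S4B
theorem a_S4W : S4W_stmt := S4W S4B
theorem a_S4I : S4I_stmt := S4I S4B
theorem a_S4C : S4C_stmt := S4C S4B
theorem a_S4X : S4X_stmt := S4X S4B a_S4W a_S4I a_S4C
theorem a_S4M : S4M_stmt := S4M S4B
theorem a_S4F : S4F_stmt := S4F S4B a_S4U a_S4X a_S4M
theorem a_S4O : S4O_stmt := S4O S4B a_S4X a_S4M
theorem a_S4S : S4S_stmt := S4S S4B a_S4U a_S4W a_S4X a_S4M a_S4F a_S4O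
theorem a_S4P : S4P_stmt := S4P S4B a_S4W
theorem a_S43 : S43_stmt := S43 S4B a_S4S a_S4P S4G
theorem a_S4Y : S4Y_stmt := S4Y S4B a_S4X
theorem a_S45 : S45_stmt := S45 S4B a_S4W S4G a_S4Y S4Q
theorem a_S4D : S4D_stmt := S4D S4B a_S4W
theorem a_S4T : S4T_stmt := S4T S4B
theorem a_S4E : S4E_stmt := S4E S4G a_S43 a_S45 a_S4D a_S4T
theorem a_S5T : S5T_stmt := S5T S4B
theorem a_S5V : S5V_stmt := S5V S4B a_S4W a_S4I a_S4C a_S4X
theorem a_S5L : S5L_stmt := S5L (S5A S4B) S5B a_S5T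
theorem a_S5E : S5E_stmt := S5E a_S4E a_S4D a_S5T a_S5V a_S5L

/-- every automorphism `x ≠ 1` of `PSp(4, 2^f)`, every odd prime `r` -/
theorem all (F : Type) [Field F] [CharP F 2] [Finite F] (x : MulAut (PSp 2 F)) (hx : x ≠ 1) (r : ℕ) (hr : r.Prime) (hr2 : r ≠ 2)
    (hrd : r ∣ Nat.card (PSp 2 F)) : ∃ β, IsLeast (CSet r x) β ∧ β ≤ 4 ∧ β ≤ (if r = 3 then 3 else r - 1) :=
  a_S5E F (fin_FIT 2 F le_rfl).1 x hx r hr hr2 hrd

/-- an automorphism of `PSp(4, 2^f)` which maps transvections to transvections is induced by a semisimilarity -/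
theorem gamma (F : Type) [Field F] [CharP F 2] [Finite F] (x : MulAut (PSp 2 F)) (hx : ∀ s, IsTv s → IsTv (x s)) : IsPGammaSp 2 F x :=
  a_S5L F x hx

end Pool.Agent.SP4
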