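import Pool.Agent.helper22.GS.Defs

/-!
# Project SP4 (MP_561ff4_al, CELL E): graph automorphisms of `Sp(4, 2^f)`

RULES. Row `XXX`: file `Pool/Agent/<seat>/SP4/XXX.lean`, `import Pool.Agent.helper53.SP4.Spec`, `set_option autoImplicit false`,
`namespace Pool.Agent.SP4`, theorem line exactly as in the lock note (other rows only as hypotheses), auxiliary lemmas prefixed `XXX_`.
No straight double quotes, no convert / congr!. Land, note DONE + path, one line to helper53.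

SETTING. `F` a finite field of characteristic 2, `V = F⁴` with the alternating form `B`, `SG F = Sp(4, F)`. `T(v) : w ↦ w + B(v,w) v` (transvection),
`A(a,b) : w ↦ w + B(b,w) a + B(a,w) b` (`B a b = 0`; the short root elements), and `C(a,b) : w ↦ w + B(a,w) a + B(b,w) b` (`= T(a) T(b)`). `x` is an automorphism which maps some
transvection to an element which is not a transvection (`Sw x`). All planes `⟨a, b⟩` below are totally isotropic. THEOREM: `4 ∈ CSet r x` for every odd prime `r ∣ q⁴ - 1`, and `3 ∈ CSet 3 x` if `x * x = 1`.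
-/

set_option autoImplicit false

namespace Pool.Agent.SP4

open Pool.Agent.GS

/-- the alternating form (characteristic 2) -/
def B {F : Type} [Field F] (u w : Fin 4 → F) : F := u 0 * w 3 + u 1 * w 2 + u 2 * w 1 + u 3 * w 0

/-- the symplectic group -/
def Sp (F : Type) [Field F] : Subgroup ((Fin 4 → F) ≃ₗ[F] (Fin 4 → F)) where
  carrier := {g | ∀ u w, B (g u) (g w) = B u w}
  one_mem' := fun _ _ => rfl
  mul_mem' := fun {g g'} hg hg' u w => (hg (g' u) (g' w)).trans (hg' u w)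
  inv_mem' := fun {g} hg u w => by
    have h := hg (g⁻¹ u) (g⁻¹ w)
    have e : ∀ v, g (g⁻¹ v) = v := fun v => g.apply_symm_apply v
    rw [e, e] at h
    exact h.symm

/-- the symplectic group as a type -/
abbrev SG (F : Type) [Field F] : Type := ↥(Sp F)

section
variable {F : Type} [Field F]

/-- `g` is the transvection `T(v)` -/
def IsT (v : Fin 4 → F) (g : SG F) : Prop := ∀ w, (g : (Fin 4 → F) ≃ₗ[F] (Fin 4 → F)) w = w + B v w • v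

/-- `g` is the element `A(a, b)` -/
def IsA (a b : Fin 4 → F) (g : SG F) : Prop := ∀ w, (g : (Fin 4 → F) ≃ₗ[F] (Fin 4 → F)) w = w + (B b w • a + B a w • b)

/-- `g` is the element `C(a, b)` -/
def IsC2 (a b : Fin 4 → F) (g : SG F) : Prop := ∀ w, (g : (Fin 4 → F) ≃ₗ[F] (Fin 4 → F)) w = w + (B a w • a + B b w • b)

/-- `a, b` span a totally isotropic plane -/
def Pl (a b : Fin 4 → F) : Prop := LinearIndependent F ![a, b] ∧ B a b = 0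

/-- the plane spanned by `a, b` -/
def Sn (a b : Fin 4 → F) : Submodule F (Fin 4 → F) := Submodule.span F {a, b}

/-- symplectic basis -/
def Gs (e1 e2 f2 f1 : Fin 4 → F) : Prop := B e1 f1 = 1 ∧ B e2 f2 = 1 ∧ B e1 e2 = 0 ∧ B e1 f2 = 0 ∧ B e2 f1 = 0 ∧ B f1 f2 = 0

/-- `x` maps some transvection to an element which is not a transvection -/
def Sw (x : MulAut (SG F)) : Prop := ∃ (v : Fin 4 → F) (t : SG F), v ≠ 0 ∧ IsT v t ∧ ∀ w, ¬ IsT w (x t)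

/-- `(⟨u⟩, ⟨u, b⟩)` is an absolute flag: `x (T(u)) = A(u, b)` -/
def Fl (x : MulAut (SG F)) (u b : Fin 4 → F) : Prop := Pl u b ∧ ∀ t : SG F, IsT u t → IsA u b (x t)

end

/-- **S4B** (medium, many easy parts). Basic facts. Form: coordinates, `ring`, `1 + 1 = 0` (`CharP F 2`, `CharTwo.add_self_eq_zero`); nondegenerate: test with the four unit vectors. Existence of `T(v)`, `A(a,b)`: linear, preserve `B` (characteristic 2), own inverse. Conjugation: `B v (g⁻¹ w) = B (g v) w`.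
`T(v) = T(v')` implies `v = v'`: `B v w v = B v' w v'` for all `w`; if `v ≠ 0` take `w` with `B v w = 1`: `v = c v'`, then `c² = 1`. A `z` commuting with all `T(v)` fixes every `v` (conjugation). `(a,b)` t.i. plane, `v ⊥ a, b`: the map `w ↦ (B a w, B b w)` from `F⁴` is onto (independent functionals, nondegenerate), its kernel has dimension 2 and contains `a, b`. -/
def S4B_stmt : Prop := ∀ (F : Type) [Field F] [CharP F 2], (∀ v : Fin 4 → F, B v v = 0) ∧ (∀ u v : Fin 4 → F, B u v = B v u) ∧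
  (∀ v : Fin 4 → F, (∀ w, B v w = 0) → v = 0) ∧ (∀ (u v w : Fin 4 → F) (c : F), B (u + c • v) w = B u w + c * B v w) ∧
  (∀ v : Fin 4 → F, ∃ t : SG F, IsT v t ∧ t * t = 1) ∧
  (∀ a b : Fin 4 → F, B a b = 0 → ∃ t : SG F, IsA a b t ∧ t * t = 1) ∧ (∀ a b : Fin 4 → F, B a b = 0 → ∃ t : SG F, IsC2 a b t ∧ t * t = 1) ∧
  (∀ (g t : SG F) (a b : Fin 4 → F), (IsT a t → IsT ((g : (Fin 4 → F) ≃ₗ[F] (Fin 4 → F)) a) (g * t * g⁻¹)) ∧
    (IsA a b t → IsA ((g : (Fin 4 → F) ≃ₗ[F] (Fin 4 → F)) a) ((g : (Fin 4 → F) ≃ₗ[F] (Fin 4 → F)) b) (g * t * g⁻¹)) ∧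
    (IsC2 a b t → IsC2 ((g : (Fin 4 → F) ≃ₗ[F] (Fin 4 → F)) a) ((g : (Fin 4 → F) ≃ₗ[F] (Fin 4 → F)) b) (g * t * g⁻¹))) ∧
  (∀ (a b : Fin 4 → F) (t t' : SG F), (IsT a t → IsT a t' → t = t') ∧ (IsA a b t → IsA a b t' → t = t') ∧ (IsC2 a b t → IsC2 a b t' → t = t')) ∧
  (∀ (v v' : Fin 4 → F) (t : SG F), IsT v t → IsT v' t → v = v') ∧ (∀ z : SG F, (∀ g : SG F, z * g = g * z) → z = 1) ∧
  ∀ a b v : Fin 4 → F, Pl a b → B a v = 0 → B b v = 0 → v ∈ Sn a b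

/-- **S4U** (short-medium). uses: S4B. Change of the basis of a plane: `v = α a + β b` (`Submodule.mem_span_pair`). `α ≠ 0`: `b' = α⁻¹ b`; `α = 0`: `b' = β⁻¹ a`. (`v ⊗ b' + b' ⊗ v = a ⊗ b + b ⊗ a` in characteristic 2.) -/
def S4U_stmt : Prop := ∀ (F : Type) [Field F] [CharP F 2] (a b v : Fin 4 → F), Pl a b → v ∈ Sn a b → v ≠ 0 →
  ∃ b', Pl v b' ∧ Sn v b' = Sn a b ∧ ∀ t : SG F, IsA a b t ↔ IsA v b' t

/-- **S4W** (medium). uses: S4B. Witt. (1) A symplectic basis is the image of the standard basis: `g w = w 0 e1 + w 1 e2 + w 2 f2 + w 3 f1` preserves `B` and is injective. (2) `v ≠ 0`: `f1` with `B v f1 = 1`; the vectors orthogonal to `v` and `f1` form a plane on which `B` is not `0`: `e2, f2` there. (3) `Pl a b`: `f1` with `B a f1 = 1`, `B b f1 = 0`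
and `f2'` with `B b f2' = 1`, `B a f2' = 0` (independent functionals); `f2 = f2' + B f1 f2' a`. (4), (5) from (1). -/
def S4W_stmt : Prop := ∀ (F : Type) [Field F] [CharP F 2],
  (∀ e1 e2 f2 f1 : Fin 4 → F, Gs e1 e2 f2 f1 → ∃ g : SG F, (g : (Fin 4 → F) ≃ₗ[F] (Fin 4 → F)) (Pi.single 0 1) = e1 ∧
    (g : (Fin 4 → F) ≃ₗ[F] (Fin 4 → F)) (Pi.single 1 1) = e2 ∧ (g : (Fin 4 → F) ≃ₗ[F] (Fin 4 → F)) (Pi.single 2 1) = f2 ∧
    (g : (Fin 4 → F) ≃ₗ[F] (Fin 4 → F)) (Pi.single 3 1) = f1) ∧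
  (∀ v : Fin 4 → F, v ≠ 0 → ∃ e2 f2 f1, Gs v e2 f2 f1) ∧ (∀ a b : Fin 4 → F, Pl a b → ∃ f2 f1, Gs a b f2 f1) ∧
  (∀ v v' : Fin 4 → F, v ≠ 0 → v' ≠ 0 → ∃ g : SG F, (g : (Fin 4 → F) ≃ₗ[F] (Fin 4 → F)) v = v') ∧
  ∀ a b a' b' : Fin 4 → F, Pl a b → Pl a' b' → ∃ g : SG F, (g : (Fin 4 → F) ≃ₗ[F] (Fin 4 → F)) a = a' ∧ (g : (Fin 4 → F) ≃ₗ[F] (Fin 4 → F)) b = b'

/-- **S4I** (medium). uses: S4B. The involutions of `Sp(4, F)`. `N = t - 1`, `N² = 0`, `B (N u) w = B u (N w)` (`B (t u) (t w) = B u w`, `t² = 1`). So `im N` is totally isotropic and `N w = 0` for `w ⊥ im N`. Rank 1: `N w = B(v₀,w) c v₀`; `v = √c v₀`. Rank 2: `im N = ⟨a₀, b₀⟩`, `N w = f(w) a₀ + g(w) b₀` with functionals `f, g` which vanish on `⟨a₀,b₀⟩^⊥`, so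
they are combinations of `B a₀`, `B b₀`: `N w = (α B(a₀,w) + β B(b₀,w)) a₀ + (β B(a₀,w) + γ B(b₀,w)) b₀` (symmetric), `αγ ≠ β²`. `α = γ = 0`: `A(β a₀, b₀)`. Otherwise (by symmetry `α ≠ 0`) `C(a, b)` with `a = √α a₀ + (β/√α) b₀`, `b = √(γ + β²/α) b₀`. (In a finite field of characteristic 2 every element is a square.)
Rank 3, 4 are impossible (`im N ⊆ ker N`). -/
def S4I_stmt : Prop := ∀ (F : Type) [Field F] [CharP F 2] [Finite F] (t : SG F), t * t = 1 → t ≠ 1 →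
  (∃ v, v ≠ 0 ∧ IsT v t) ∨ (∃ a b, Pl a b ∧ IsA a b t) ∨ ∃ a b, Pl a b ∧ IsC2 a b t

/-- **S4C** (medium). uses: S4B. An element `g` of order 3 does not commute with `C(a, b)`. `g C(a,b) g⁻¹ = C(ga, gb) = C(a,b)`. So `B(a,w) a + B(b,w) b = B(ga,w) ga + B(gb,w) gb` for all `w`; `g` maps the image `⟨a, b⟩` to itself: `ga = α a + β b`, `gb = γ a + δ b`; compare the coefficients (`B(a,·)`, `B(b,·)` are independent):
`α² + γ² = 1`, `β² + δ² = 1`, `αβ + γδ = 0`, so `γ = α + 1`, `δ = β + 1` and `αβ + (α+1)(β+1) = 0`, `α + β = 1`: `g` has the matrix `[[α, α+1],[α+1, α]]` on `⟨a, b⟩`, so `g² = 1` there, and `g³ = 1`: `g = 1` there. For every `w`: `B (g w - w) a = B (g w) (g a) - B w a = 0`, the same with `b`: `g w - w ∈ ⟨a, b⟩` (S4B), so `g² w = w`, and `g = 1`. -/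
def S4C_stmt : Prop := ∀ (F : Type) [Field F] [CharP F 2] (a b : Fin 4 → F) (t g : SG F), Pl a b → IsC2 a b t → g * t = t * g → g ^ 3 = 1 → g = 1

/-- **S4X** (medium). uses: S4B, S4W, S4I, S4C. Images of transvections. `x t₀` (`Sw x`, `t₀ = T(v₀)`) is an involution. S4I: it is no transvection. With `e2, f2` orthogonal to `v₀`, `B e2 f2 = 1` (S4W (2)): `h = T(e2) T(f2)` has order 3 (`h³ = 1`, `h ≠ 1`: `h` fixes `e1, f1`; on `⟨e2, f2⟩`: `e2 ↦ T(e2)(e2 + f2) = f2`.. ) and commutes with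
`t₀` (conjugation of `T(v₀)` fixes `v₀`); so `x h` has order 3 and commutes with `x t₀`: not of type `C` (S4C). So `x t₀ = A(a, b)`. Any `T(v) = g t₀ g⁻¹` (S4W, S4B), so `x (T(v)) = A(x(g) a, x(g) b)` (as a linear map). If `x * x = 1`: `x (A(a,b)) = x (x t₀) = t₀`, and every `A(a', b')` is conjugate to `A(a, b)`. -/
def S4X_stmt : Prop := ∀ (F : Type) [Field F] [CharP F 2] [Finite F] (x : MulAut (SG F)), Sw x →
  (∀ (v : Fin 4 → F) (t : SG F), v ≠ 0 → IsT v t → ∃ a b, Pl a b ∧ IsA a b (x t)) ∧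
  (x * x = 1 → ∀ (a b : Fin 4 → F) (t : SG F), Pl a b → IsA a b t → ∃ v, v ≠ 0 ∧ IsT v (x t))

/-- **S4M** (medium). uses: S4B. Commuting elements. (1), (2): `s T(v) s⁻¹ = T(s v)`, so they commute iff `s v = v` (S4B); for `s = A(a,b)`: `B b v • a + B a v • b = 0` iff `B a v = B b v = 0` iff `v ∈ Sn a b`. (3): `N, N'` the nilpotent parts. Commuting and `⟨a,b⟩ ∩ ⟨c,d⟩ = 0`: `N N' = N' N` has image in the intersection, so `N N' = 0`, the image `⟨c,d⟩` of `N'` is in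
`ker N = ⟨a,b⟩`, a contradiction. Conversely, a common vector `m`: `A(a,b) = A(m,b')`, `A(c,d) = A(m,d')` (S4U-like: choose the basis), `N N' w = B m w B b' d' m = N' N w`. -/
def S4M_stmt : Prop := ∀ (F : Type) [Field F] [CharP F 2] (v w a b c d : Fin 4 → F) (t t' s s' : SG F), v ≠ 0 → w ≠ 0 → Pl a b → Pl c d →
  IsT v t → IsT w t' → IsA a b s → IsA c d s' →
  (t * t' = t' * t ↔ B v w = 0) ∧ (t * s = s * t ↔ v ∈ Sn a b) ∧ (s * s' = s' * s ↔ ∃ m, m ≠ 0 ∧ m ∈ Sn a b ∧ m ∈ Sn c d)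

/-- **S4F** (medium). uses: S4B, S4U, S4X, S4M. Absolute flags. `t = T(v)`, `s = x t = A(a, b)` (S4X). If `v ∈ ⟨a,b⟩`: S4U gives `b'`, the flag `(v, b')`. Otherwise `u = s v + v = B b v a + B a v b ≠ 0`, `u ∈ ⟨a,b⟩`, `B u v = 0`. `T(u)` commutes with `t` and `s` (S4M), `x (T(u)) = A(c, d)` (S4X) commutes with `x t = s` and `x s = x (x t) = t`:
`v ∈ ⟨c,d⟩` and there is `m ≠ 0` in `⟨c,d⟩ ∩ ⟨a,b⟩` (S4M). `v, m` are independent (`v ∉ ⟨a,b⟩`), so `⟨c,d⟩ = ⟨v,m⟩`, `B v m = 0`; the vectors of `⟨a,b⟩` orthogonal to `v` are the multiples of `u` (`v ∉ ⟨a,b⟩ = ⟨a,b⟩^⊥`), so `u ∈ ⟨c,d⟩`. S4U: `A(c,d) = A(u,b')`, `v ∈ ⟨u,b'⟩`. -/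
def S4F_stmt : Prop := ∀ (F : Type) [Field F] [CharP F 2] [Finite F] (x : MulAut (SG F)), Sw x → x * x = 1 → ∀ v : Fin 4 → F, v ≠ 0 →
  ∃ u b, Fl x u b ∧ v ∈ Sn u b

/-- **S4O** (medium). uses: S4B, S4X, S4M. Different absolute flags are opposite. `L₁ = ⟨u₁,b₁⟩`, `L₂ = ⟨u₂,b₂⟩`, `x (T(uᵢ)) = A(uᵢ,bᵢ)`, `x (A(uᵢ,bᵢ)) = T(uᵢ)`. Suppose `B u₁ u₂ = 0`. Then `T(u₁), T(u₂)` commute, so `A(u₁,b₁), A(u₂,b₂)` commute: `m ≠ 0` in `L₁ ∩ L₂`. (i) `u₁, u₂` independent. If `u₂ ∈ L₁`: `T(u₂)` commutes with `A(u₁,b₁)`, apply `x`: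
`A(u₂,b₂)` commutes with `T(u₁)`, `u₁ ∈ L₂`, so `L₁ = ⟨u₁,u₂⟩ = L₂`, a contradiction; the same if `u₁ ∈ L₂`. Otherwise `m` is no multiple of `u₁` or `u₂`, `m ⊥ u₁, u₂`, so `m ∈ ⟨u₁,u₂⟩` and `L₁ = ⟨u₁,m⟩ = ⟨u₁,u₂⟩ ∋ u₂`, a contradiction. (ii) `u₂ = c u₁`: if `c = 1`: `A(u₁,b₁) = A(u₁,b₂)`, equal images, `L₁ = L₂`. Otherwise
`T(u₁) T(u₂) = T((1+c) u₁)`, so `A(u₁,b₁) A(u₂,b₂) = x (T((1+c) u₁))` is of type `A` (S4X); with `b₂' = c b₂` the product is `w ↦ w + B(b₁+b₂',w) u₁ + B(u₁,w)(b₁+b₂') + B(b₁,b₂') B(u₁,w) u₁`, and `B w (t w) = 0` for an element of type `A`, so `B(b₁,b₂') = 0`, `b₂' ∈ ⟨u₁,b₁⟩` (S4B), `L₁ = L₂`. So `B u₁ u₂ ≠ 0`. If `m ≠ 0` is in `L₁ ∩ L₂`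
then `A(u₁,b₁), A(u₂,b₂)` commute, so `T(u₁), T(u₂)` commute (apply `x`), `B u₁ u₂ = 0`. -/
def S4O_stmt : Prop := ∀ (F : Type) [Field F] [CharP F 2] [Finite F] (x : MulAut (SG F)), Sw x → x * x = 1 → ∀ u1 b1 u2 b2 : Fin 4 → F,
  Fl x u1 b1 → Fl x u2 b2 → Sn u1 b1 ≠ Sn u2 b2 → B u1 u2 ≠ 0 ∧ ∀ m, m ∈ Sn u1 b1 → m ∈ Sn u2 b2 → m = 0

/-- **S4S** (medium). uses: S4B, S4U, S4W, S4X, S4M, S4F, S4O. Coordinates. S4F with any `v ≠ 0`: `(u₁,b₁)`; S4F with some `v ∉ Sn u₁ b₁`: `(u₂,b₂)`, `v ∈ Sn u₂ b₂`, so S4O applies. `e1 = u₁`, `f1 = u₂ / B u₁ u₂`, `e2 = b₁ + c u₁` with `B e2 f1 = 0`, `f2 ∈ ⟨u₂,b₂⟩` with `B u₁ f2 = 0`, scaled to `B e2 f2 = 1` (`B e2 f2 ≠ 0`: otherwise `f2 ∈ ⟨e1,e2⟩`).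
`x (T(e2)) = A(c, d)`: `T(e2)` commutes with `A(u₁,b₁) = x (T(u₁))` and `T(u₂)`, so `A(c,d)` commutes with `T(u₁)` and `A(u₂,b₂)`: `e1 ∈ ⟨c,d⟩`, `m ∈ ⟨c,d⟩ ∩ ⟨f1,f2⟩`, `B e1 m = 0`, so `m` is a multiple of `f2`, `⟨c,d⟩ = ⟨e1,f2⟩`, `x (T(e2)) = A(μ e1, f2)`, `μ ≠ 0`. In the same way `x (T(f2)) = A(ν f1, e2)`. Replace `e1, f1` by `μ e1, μ⁻¹ f1` (`ν` by `νμ`): `μ = 1`.
`(T(e2) T(f2))³ = 1`, so `P = A(e1,f2) A(ν f1,e2)` has `P³ = 1`; on `⟨e1,e2⟩`: `P e1 = (1+ν) e1 + ν e2`, `P e2 = e1 + e2`, trace `ν`, determinant 1, `P³ = (ν²+1) P + ν`, so (coefficient of `e1` in `P³ e2`) `ν² + 1 = 0`, `ν = 1`. -/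
def S4S_stmt : Prop := ∀ (F : Type) [Field F] [CharP F 2] [Finite F] (x : MulAut (SG F)), Sw x → x * x = 1 → ∃ e1 e2 f2 f1 : Fin 4 → F,
  Gs e1 e2 f2 f1 ∧ (∀ t : SG F, IsT e2 t → IsA e1 f2 (x t)) ∧ ∀ t : SG F, IsT f2 t → IsA f1 e2 (x t)

/-- **S4P** (short-medium). uses: S4B, S4W. The word (found by computer in `Sp(4,2)`). Compute on the basis (or S4W (1) and matrices): with columns `e1, e2, f2, f1`: `t₁ = T(f2)`: `e2 ↦ e2 + f2`; `s₁ = A(f1,e2)`: `f2 ↦ f2 + f1`, `e1 ↦ e1 + e2`; `t₂ = T(e2)`: `f2 ↦ f2 + e2`; `s₂ = A(e1,f2)`: `e2 ↦ e2 + e1`, `f1 ↦ f1 + f2`; other basis vectors fixed. Linear maps which agree on the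
basis are equal (`w = B w f1 • e1 + B w f2 • e2 + B w e2 • f2 + B w e1 • f1`). -/
def S4P_stmt : Prop := ∀ (F : Type) [Field F] [CharP F 2] (e1 e2 f2 f1 : Fin 4 → F) (t1 s1 t2 s2 : SG F), Gs e1 e2 f2 f1 → IsT f2 t1 → IsA f1 e2 s1 →
  IsT e2 t2 → IsA e1 f2 s2 →
  ((s1 * t1⁻¹) * (s1 * t1⁻¹) * (s2 * t2⁻¹) * (s1 * t1⁻¹) * (s2 * t2⁻¹)⁻¹) ^ 3 = 1 ∧ (s1 * t1⁻¹) * (s1 * t1⁻¹) * (s2 * t2⁻¹) * (s1 * t1⁻¹) * (s2 * t2⁻¹)⁻¹ ≠ 1

/-- **S4G** (short-medium; groups). (1) `conj (x t) = x * conj t * x⁻¹` in `MulAut G`, so `conj (x t * t⁻¹) = x * (conj t * x * (conj t)⁻¹)⁻¹`. (2) The group generated by the `g i * x * (g i)⁻¹`, `g i = conj (h i)`, contains `conj Z`: its order is divisible by the order of `conj Z`. (3) Powers: the group for `x ^ j` and the same `g i` is contained in the group for `x`. -/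
def S4G_stmt : Prop := ∀ (G : Type) [Group G] [Finite G] (x : MulAut G) (r k : ℕ),
  (∀ t : G, (MulAut.conj (x t * t⁻¹) : MulAut G) = x * (MulAut.conj t * x * (MulAut.conj t)⁻¹)⁻¹) ∧
  (∀ (h : Fin k → G) (Z : G), 1 ≤ k → (MulAut.conj Z : MulAut G) ∈ Subgroup.closure (Set.range fun i => MulAut.conj (h i) * x * (MulAut.conj (h i))⁻¹) →
    (∀ m : ℕ, (MulAut.conj Z : MulAut G) ^ m = 1 → r ∣ m) → k ∈ CSet r x) ∧
  ∀ j : ℕ, k ∈ CSet r (x ^ j) → k ∈ CSet r x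

/-- **S43** (medium). uses: S4B, S4S, S4P, S4G. `r = 3`. S4S; `t₁ = T(f2)`, `t₂ = T(e2)` (S4B), `s₁ = x t₁ = A(f1,e2)`, `s₂ = x t₂ = A(e1,f2)`. `z₁ = x t₁ * t₁⁻¹`, `z₂ = x t₂ * t₂⁻¹`, `Z` the word of S4P. `conj z₁`, `conj z₂` are in the group generated by `x`, `conj t₁ x (conj t₁)⁻¹`, `conj t₂ x (conj t₂)⁻¹` (S4G (1)), so is `conj Z`. `(conj Z)^m = 1`: `Z^m` is central, so `1` (S4B), `3 ∣ m` (S4P).
S4G (2) with `k = 3`, `h = ![1, t₁, t₂]`. -/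
def S43_stmt : Prop := ∀ (F : Type) [Field F] [CharP F 2] [Finite F] (x : MulAut (SG F)), Sw x → x * x = 1 → 3 ∈ CSet 3 x

/-- **S4Y** (medium). uses: S4B, S4X. An element of type `C` from two conjugates (`x * x = 1` is not needed). `t = T(v)`, any `v ≠ 0`, `s = x t = A(a,b)`, `y = s t⁻¹ = s t`. If `v ∈ ⟨a,b⟩`: `A(a,b) = A(v, b')` (`b' = α⁻¹ b` or `β⁻¹ a`), `y w = w + B(b',w) v + B(v,w) b' + B(v,w) v` `= C(v + b', b') w`: `n = 1`. If `v ∉ ⟨a,b⟩`: `N = s - 1`, `u = N v ≠ 0`, `n = 2`: with `P w = B(v,w) v`, `N² = P² = 0`,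
`P N P = 0` (`B(v, N v) = 0`): `y² = 1 + P N + N P + N P N`, `P N w = B(u,w) v`, `N P w = B(v,w) u`, `N P N w = B(u,w) u`, so `y² = C(v, u + v)`; `B u v = 0`, `u, v` independent (`u ∈ ⟨a,b⟩ ∌ v`). (`B (N w) w' = B w (N w')`.) -/
def S4Y_stmt : Prop := ∀ (F : Type) [Field F] [CharP F 2] [Finite F] (x : MulAut (SG F)), Sw x → ∃ (t : SG F) (n : ℕ) (a b : Fin 4 → F),
  Pl a b ∧ IsC2 a b ((x t * t⁻¹) ^ n)

/-- **S4Q** (medium). Products of two elements of type `C`. `K` an algebraic closure of `F`, `ζ ∈ K` a primitive `r`-th root of unity, `μ = ζ + ζ⁻¹ ≠ 0` (`ζ² ≠ 1`), `μ^(q²) = μ` (`ζ^(q²) = ζ^(±1)` as `r ∣ q² - 1` or `r ∣ q² + 1`). `s, d ∈ F` with `μ² + s μ + d = 0`, `d ≠ 0`: `s = μ + μ^q`, `d = μ^(q+1)` (elements of `K` fixed by `x ↦ x^q` are in `F`). `c₂ = √d`,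
`c₁ = 1 + √d + √s` (every element of `F` is a square), `a' = f1`, `b' = c₁ f1 + c₂ f2` (`e1, e2, f2, f1 = Pi.single 0, 1, 2, 3`). `c c'`: `c' w = w + (B a' w) a' + (B b' w) b'` maps `x₁ e1 + x₂ e2 + y₁ f1 + y₂ f2` to `x`, `y + M x`, `M = [[1 + c₁², c₁c₂],[c₁c₂, c₂²]]`, trace `s`, determinant `d`; `c`: `x + y, y`. `w = (w₁, w₂) ∈ K²`, `M w = μ w`, `w ≠ 0`;
`(α w, β w)` with `(1 + μ) α + β = ζ α`, `μ α + β = ζ β` (`ζ² + μ ζ + 1 = 0`) is an eigenvector of the `4 × 4` matrix of `c c'` over `K` with the eigenvalue `ζ`. So `(c c')^m = 1` implies `ζ^m = 1`. -/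
def S4Q_stmt : Prop := ∀ (F : Type) [Field F] [CharP F 2] [Finite F] (r : ℕ), r.Prime → r ≠ 2 → r ∣ Nat.card F ^ 4 - 1 → ∃ a' b' : Fin 4 → F, Pl a' b' ∧
  ∀ c c' : SG F, IsC2 (Pi.single 0 1) (Pi.single 1 1) c → IsC2 a' b' c' → ∀ m : ℕ, (c * c') ^ m = 1 → r ∣ m

/-- **S45** (medium). uses: S4B, S4W, S4G, S4Y, S4Q. `Y = x t * t⁻¹`, `Y^n = C(a,b)` (S4Y). S4W: `g₀ a = e1`, `g₀ b = e2`; `g₁ a = a'`, `g₁ b = b'` (S4Q). `Z = (g₀ Y g₀⁻¹)^n (g₁ Y g₁⁻¹)^n = c c'`. `conj (g Y g⁻¹) = (conj g x (conj g)⁻¹) (conj (g t) x (conj (g t))⁻¹)⁻¹` (S4G (1), conjugated). So `conj Z` is in the group generated by four conjugates; S4G (2), centre trivial (S4B). -/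
def S45_stmt : Prop := ∀ (F : Type) [Field F] [CharP F 2] [Finite F] (x : MulAut (SG F)), Sw x → ∀ r : ℕ, r.Prime → r ≠ 2 → r ∣ Nat.card F ^ 4 - 1 →
  4 ∈ CSet r x

/-- **S4D** (medium). uses: S4B, S4W. `r ∣ |Sp(4,q)|`, `r ≠ 2`: `r ∣ q⁴ - 1`. Otherwise let `g` have order `r` (Cauchy). `g` permutes the `q⁴ - 1` nonzero vectors, `r ∤ q⁴ - 1`: it fixes some `v ≠ 0` (fixed points of a group of order `r`: `card ≡` modulo `r`). It permutes the `q³` vectors `w` with `B v w = 1` (`r ≠ 2`): it fixes some `f1`. It acts on the plane orthogonal to `v, f1`, with `q² - 1` nonzero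
vectors (`q² - 1 ∣ q⁴ - 1`): it fixes some `e2 ≠ 0` there, and permutes the `q` vectors `w` there with `B e2 w = 1`: it fixes a basis. -/
def S4D_stmt : Prop := ∀ (F : Type) [Field F] [CharP F 2] [Finite F] (r : ℕ), r.Prime → r ≠ 2 → r ∣ Nat.card (SG F) → r ∣ Nat.card F ^ 4 - 1

/-- transvections in `PSp(4, F)` -/
def IsTv {F : Type} [Field F] (s : PSp 2 F) : Prop := ∃ (g : Matrix.symplecticGroup (Fin 2) F) (v : Fin 2 ⊕ Fin 2 → F), v ≠ 0 ∧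
  s = QuotientGroup.mk g ∧ ∀ w, (g : Matrix (Fin 2 ⊕ Fin 2) (Fin 2 ⊕ Fin 2) F).mulVec w = w + BJ 2 F v w • v

/-- **S4T** (medium). uses: S4B. The isomorphism `Sp(4, F) ≅ PSp(4, F)` (characteristic 2). The centre of the matrix group is trivial (a central element commutes with the transvections, so it is scalar `c` with `c² = 1`, `c = 1`). `L : (Fin 4 → F) ≃ₗ (Fin 2 ⊕ Fin 2 → F)`, `e1, e2 ↦ inl 0, inl 1`, `f1, f2 ↦ inr 0, inr 1`; `BJ 2 F (L u) (L w) = B u w`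
(`J = [[0,-1],[1,0]]`, `-1 = 1`). `Φ g = mk` of the matrix of `L g L⁻¹` (`A Jᵀ.. `: a matrix `A` with `B (A u) (A w) = B u w` satisfies `Aᵀ J A = J`, so `A J Aᵀ = J`). Surjective and injective. `IsT v g ↔` the matrix is the transvection with `L v`. -/
def S4T_stmt : Prop := ∀ (F : Type) [Field F] [CharP F 2], ∃ Φ : SG F ≃* PSp 2 F, ∀ t : SG F, (∃ v, v ≠ 0 ∧ IsT v t) ↔ IsTv (Φ t)

/-- **S4E** (medium). uses: S4G, S43, S45, S4D, S4T. The theorem for `PSp(4, 2^f)`. Transport `x` to `x' = Φ⁻¹ x Φ` (`MulAut.congr`), `Sw x'` (S4T: if `IsT w (x' t)` then `w ≠ 0` as `x' t ≠ 1`); `CSet r x' = CSet r x` (transport along the isomorphism; one inclusion is enough). `r ∣ |S|`, `r ≠ 2`: `r ∣ q⁴ - 1` (S4D), `4 ∈ CSet r x` (S45); `r ≥ 5`: `4 ≤ r - 1`.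
`r = 3`, `x * x = 1`: S43. `r = 3`, `x * x ≠ 1`: `hGS` (the theorem `Pool.Agent.GS.fin_FIT` for `n = 2`) for `x * x`: some `β ≤ 2 * 1` (`3 ∣ q² - 1`) in `CSet 3 (x * x)`, `x * x = x ^ 2`, S4G (3). `IsLeast`: `sInf`. -/
def S4E_stmt : Prop := ∀ (F : Type) [Field F] [CharP F 2] [Finite F],
  (∀ x : MulAut (PSp 2 F), IsPGammaSp 2 F x → x ≠ 1 → ∀ r : ℕ, r.Prime → r ≠ 2 → r ∣ Nat.card (PSp 2 F) → ∃ β, IsLeast (CSet r x) β ∧ β ≤ r - 1 ∧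
    (r ∣ Nat.card F → β ≤ 2) ∧ ∀ m, 1 ≤ m → m ≤ 2 → r ∣ Nat.card F ^ (2 * m) - 1 → β ≤ 2 * m) →
  ∀ x : MulAut (PSp 2 F), (∃ s, IsTv s ∧ ¬ IsTv (x s)) → (x * x = 1 ∨ IsPGammaSp 2 F (x * x)) → ∀ r : ℕ, r.Prime → r ≠ 2 → r ∣ Nat.card (PSp 2 F) →
    ∃ β, IsLeast (CSet r x) β ∧ β ≤ 4 ∧ β ≤ (if r = 3 then 3 else r - 1)

end Pool.Agent.SP4
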