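import Pool.Agent.helper53.SP4.Spec

/-!
# Project SP4 (MP_561ff4_al, CELL E), part 2: EVERY automorphism of `Sp(4, 2^f)`

RULES. Row `XXX`: file `Pool/Agent/<seat>/SP4/XXX.lean`, `import Pool.Agent.helper53.SP4.Spec2`, `set_option autoImplicit false`,
`namespace Pool.Agent.SP4`, theorem line exactly as in the lock note (other rows only as hypotheses), auxiliary lemmas prefixed `XXX_`.
No straight double quotes, no convert / congr!. Land, note DONE + path, one line to helper53.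

PLAN. An automorphism `y` which maps transvections to transvections is induced by a semilinear map `φ`, `y (T(v)) = T(φ v)` (S5A, S5B). If `x` maps some transvection to
an element which is no transvection, then `x * x` maps transvections to transvections (S5V). So the theorem of part 1 holds for every `x ≠ 1` (S5E).
-/

set_option autoImplicit false

namespace Pool.Agent.SP4

open Pool.Agent.GS

/-- **S5B** (medium; pure algebra). Semilinearity. Write `β(u,v) = B (φ u) (φ v)`. (1) `B u v = 1`: the fourth hypothesis for `(u,v)` and `(v,u)`: `φ(u+v) = φ v + β φ u = φ u + β φ v`, so `(β+1)(φ u + φ v) = 0` (characteristic 2); `φ u = φ v` would give `β = B (φ u) (φ u) = 0`, but `β ≠ 0`. So `β = 1`, `φ(u+v) = φ u + φ v`.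
(2) For `u ≠ 0` let `φ(c u) = s_u(c) φ u` (unique, `φ u ≠ 0`). `B u v = 1`: the hypothesis for `(u, c v)` (`B u (c v) = c`) gives `φ(c v + c u) = s_v(c) φ v + s_v(c) β(u,v) φ u = s_v(c) (φ u + φ v)`; for `(v, c u)`: `= s_u(c) (φ u + φ v)`; `φ u + φ v = φ(u+v) ≠ 0` (`u + v = 0` gives `B u v = 0`). So `s_u = s_v`. (3) `u, v` independent: there is `w` with
`B u w = 1 = B v w` (nondegenerate), so `s_u = s_w = s_v`. If `v` is a multiple of `u` take `z` independent of `u`: `s_u = s_z = s_v`. So `s_u = σ` for all `u ≠ 0`. (4) `σ` is additive (fifth hypothesis), `φ(a(b u))` gives `σ(ab) = σ(a)σ(b)`, `σ(1) = 1`; injective (a field), so bijective (`F` finite). (5) `β(u,v) = σ(B u v)`: `b = B u v ≠ 0`: `v = b v'`, `B u v' = 1`.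
(6) Additivity: `B (φ(u+v) + φ u + φ v) (φ w) = σ(B (u+v) w) + σ(B u w) + σ(B v w) = 0` for all `w`, `φ` is surjective, `B` nondegenerate. `φ` is injective (additive, kernel `0`). -/
def S5B_stmt : Prop := ∀ (F : Type) [Field F] [CharP F 2] [Finite F] (φ : (Fin 4 → F) → (Fin 4 → F)), Function.Surjective φ → (∀ v, φ v = 0 ↔ v = 0) →
  (∀ u v, B u v = 0 ↔ B (φ u) (φ v) = 0) → (∀ u v, φ (v + B u v • u) = φ v + B (φ u) (φ v) • φ u) →
  (∀ (a b : F) (u : Fin 4 → F), φ ((a + b) • u) = φ (a • u) + φ (b • u)) → (∀ (a : F) (u : Fin 4 → F), ∃ c : F, φ (a • u) = c • φ u) →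
  ∃ (ψ : (Fin 4 → F) ≃+ (Fin 4 → F)) (σ : F ≃+* F), (∀ v, ψ v = φ v) ∧ (∀ (c : F) (v : Fin 4 → F), φ (c • v) = σ c • φ v) ∧
    ∀ u w, B (φ u) (φ w) = σ (B u w)

/-- **S5A** (medium). uses: S4B, S4M. The map `φ`. `φ 0 = 0`; for `v ≠ 0` and `t = T(v)`: `y t = T(φ v)` (hypothesis), `φ v ≠ 0` (`y t ≠ 1`; `t ≠ 1` as `T(v) = T(0)` implies `v = 0`, S4B). So `IsT v t → IsT (φ v) (y t)` for all `v` (uniqueness of `T(v)`). `g T(v) g⁻¹ = T(g v)`: `T(φ (g v)) = y(g) T(φ v) y(g)⁻¹ = T(y(g) (φ v))`, so `y(g) (φ v) = φ (g v)`.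
Injective: `T(φ v) = T(φ v')` implies `T(v) = T(v')`, so surjective (finite). `B u v = 0` iff `T(u), T(v)` commute (S4M (1), trivial if one is `0`). `φ(T(u) v) = T(φ u) (φ v)` is the fourth property. Lines: for `a ≠ 0, 1`, `u ≠ 0`: `T(u) T(a u) = T((1+a) u)` (`1 + a² = (1+a)²`); apply `y`: `T(p) T(q) = T(w)`, `p = φ u`, `q = φ(a u)`, `w = φ((1+a)u)`,
`B p q = 0`: `B p z • p + B q z • q = B w z • w` for all `z`. If `p, q` were independent, `z` with `(B p z, B q z) = (1,0)` and `(0,1)` give `p, q ∈ ⟨w⟩`, a contradiction; so `q = c p`, `(1 + c²) B p z p = B w z w`, `w` is a multiple `e p` of `p`, `e² = 1 + c² = (1+c)²`, `w = (1+c) p = p + q`. The general case of additivity: `a = 0`, `b = 0`, `a = b` are trivial; otherwise apply this to `a u` and `b/a`. -/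
def S5A_stmt : Prop := ∀ (F : Type) [Field F] [CharP F 2] [Finite F] (y : MulAut (SG F)),
  (∀ (v : Fin 4 → F) (t : SG F), v ≠ 0 → IsT v t → ∃ w, IsT w (y t)) → ∃ φ : (Fin 4 → F) → (Fin 4 → F), Function.Surjective φ ∧ (∀ v, φ v = 0 ↔ v = 0) ∧
  (∀ u v, B u v = 0 ↔ B (φ u) (φ v) = 0) ∧ (∀ u v, φ (v + B u v • u) = φ v + B (φ u) (φ v) • φ u) ∧
  (∀ (a b : F) (u : Fin 4 → F), φ ((a + b) • u) = φ (a • u) + φ (b • u)) ∧ (∀ (a : F) (u : Fin 4 → F), ∃ c : F, φ (a • u) = c • φ u) ∧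
  ∀ (g : SG F) (v : Fin 4 → F), ((y g : SG F) : (Fin 4 → F) ≃ₗ[F] (Fin 4 → F)) (φ v) = φ ((g : (Fin 4 → F) ≃ₗ[F] (Fin 4 → F)) v)

/-- **S5T** (short). uses: S4B. The isomorphism with its matrices: copy `Pool/Agent/helper14/SP4/S4T.lean` (or import it): `L = S4T_L F`, `Ψ = S4T_phi F` (bijective: `S4T_inj`, `S4T_surj`), `Φ` as there. -/
def S5T_stmt : Prop := ∀ (F : Type) [Field F] [CharP F 2], ∃ (Φ : SG F ≃* PSp 2 F) (Ψ : SG F ≃* Matrix.symplecticGroup (Fin 2) F)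
  (L : (Fin 4 → F) ≃ₗ[F] (Fin 2 ⊕ Fin 2 → F)), (∀ u w, BJ 2 F (L u) (L w) = B u w) ∧ (∀ g : SG F, Φ g = QuotientGroup.mk (Ψ g)) ∧
  (∀ (g : SG F) (w : Fin 2 ⊕ Fin 2 → F), ((Ψ g : Matrix.symplecticGroup (Fin 2) F) : Matrix (Fin 2 ⊕ Fin 2) (Fin 2 ⊕ Fin 2) F).mulVec w =
    L ((g : (Fin 4 → F) ≃ₗ[F] (Fin 4 → F)) (L.symm w))) ∧ ∀ t : SG F, (∃ v, v ≠ 0 ∧ IsT v t) ↔ IsTv (Φ t)

/-- **S5V** (medium). uses: S4B, S4W, S4I, S4C, S4X. `s = x t = A(a, b)` (S4X). `x s` is an involution (`s * s = 1`, `s ≠ 1`). S4I: type `T` (done), `A` or `C`. NOT `C`: `f2, f1` with `Gs a b f2 f1` (S4W (3)); the linear map `h`: `a ↦ b`, `b ↦ a + b`, `f2 ↦ f1`, `f1 ↦ f2 + f1` preserves `B` (the images are again a symplectic basis `Gs b (a+b) f1 (f2+f1)`; check; or by S4W (1), (2) maps between bases),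
`h³ = 1`, `h ≠ 1`, `h A(a,b) h⁻¹ = A(b, a+b) = A(a,b)`. So `x h` commutes with `x s`, `(x h)³ = 1`, `x h ≠ 1`, contradicting S4C. NOT `A`: if `x s = A(c,d)` let `g` map `(a,b)` to `(c,d)` (S4W (5)): `x s = g s g⁻¹ = g (x t) g⁻¹ = x (g' t g'⁻¹)`, `g' = x⁻¹ g`, so `s = g' t g'⁻¹` is a transvection. But `Sw x`: `x t₀` is no transvection, `t = k t₀ k⁻¹` (S4W (4), S4B), so
`s = x t = x(k) (x t₀) x(k)⁻¹` is no transvection. -/
def S5V_stmt : Prop := ∀ (F : Type) [Field F] [CharP F 2] [Finite F] (x : MulAut (SG F)), Sw x →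
  ∀ (v : Fin 4 → F) (t : SG F), v ≠ 0 → IsT v t → ∃ w, IsT w (x (x t))

/-- **S5L** (medium). uses: S5A, S5B, S5T. `y = Φ⁻¹ x Φ` maps transvections to transvections (S5T), so S5A, S5B give `φ`, `σ`. `ρ = L φ L⁻¹` is `σ`-semilinear and bijective on `F^(2+2)`, `ρ w = A.mulVec (fun i => σ (w i))` with `A` the matrix with the columns `ρ (Pi.single j 1)`. `BJ (ρ u) (ρ w) = σ (BJ u w)`: for the unit vectors, `Aᵀ J A = J` (`J` has entries `0, ±1`), so `A` is in the symplectic group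
(`SymplecticGroup.mem_iff'`), it is invertible and `A J Aᵀ = J`, `ν = 1`. For `g`, `h = A (g.map σ) A⁻¹`: `g = Ψ g₀`, `x (mk g) = x (Φ g₀) = Φ (y g₀) = mk (Ψ (y g₀))`; `Ψ (y g₀)` maps `ρ w` to `L (y g₀ (φ (L⁻¹ w))) = L φ (g₀ L⁻¹ w) = ρ (g w) = A (g.map σ) (σ w) = h (ρ w)`; `ρ` is surjective, so `Ψ (y g₀) = h`. -/
def S5L_stmt : Prop := ∀ (F : Type) [Field F] [CharP F 2] [Finite F] (x : MulAut (PSp 2 F)), (∀ s, IsTv s → IsTv (x s)) → IsPGammaSp 2 F x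

/-- **S5E** (short-medium). uses: S4E, S4D, S5T, S5V, S5L. The theorem. If `x` maps all transvections of `PSp(4, F)` to transvections: `IsPGammaSp` (S5L), `hGS`; `r ∣ q⁴ - 1` (S4D; `Nat.card (SG F) = Nat.card (PSp 2 F)` by `Φ`): `m = 2` gives `β ≤ 4`; `r = 3`: `3 ∣ q² - 1` (`q` is not divisible by 3), `m = 1` gives `β ≤ 2`. Otherwise S4E: `x * x` maps transvections to transvections (S5V for `Φ⁻¹ x Φ`, S5T), so `IsPGammaSp 2 F (x * x)` (S5L). -/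
def S5E_stmt : Prop := ∀ (F : Type) [Field F] [CharP F 2] [Finite F],
  (∀ x : MulAut (PSp 2 F), IsPGammaSp 2 F x → x ≠ 1 → ∀ r : ℕ, r.Prime → r ≠ 2 → r ∣ Nat.card (PSp 2 F) → ∃ β, IsLeast (CSet r x) β ∧ β ≤ r - 1 ∧
    (r ∣ Nat.card F → β ≤ 2) ∧ ∀ m, 1 ≤ m → m ≤ 2 → r ∣ Nat.card F ^ (2 * m) - 1 → β ≤ 2 * m) →
  ∀ x : MulAut (PSp 2 F), x ≠ 1 → ∀ r : ℕ, r.Prime → r ≠ 2 → r ∣ Nat.card (PSp 2 F) →
    ∃ β, IsLeast (CSet r x) β ∧ β ≤ 4 ∧ β ≤ (if r = 3 then 3 else r - 1)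

end Pool.Agent.SP4
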